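import Mathlib
import Pool.Agent.H523R3.JC

set_option autoImplicit false
set_option linter.unusedSectionVars false

/-!
# Symbolic determinants of matrix spaces which are Jordan systems in unknown coordinates

Let `B_i` (`i ∈ σ`) be finitely many `n × n` matrices over a field `K` of characteristic zero and
let `J` be their span.  Suppose that there are invertible matrices `P, Q` over some extension field
`L` such that the `L`-span of the matrices `P B_i Q` is closed under squares or under cubes (for
instance: `P J Q` is an associative algebra, a Jordan algebra, the space of all symmetric or all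
skew-symmetric matrices, a Jordan triple system).  `P`, `Q` and `L` are not given.  We prove the
correctness of a deterministic procedure which decides whether `det (∑ x_i B_i) = 0`.

The procedure works with the quadratic dual `J* = {Y | X Y X ∈ J for all X ∈ J}`, which is given by
linear equations, and with regular pairs `X ∈ J`, `Y ∈ J*`, `X Y X = X`, `Y X Y = Y`.  It starts with
`(0, 0)`.  If one of the test values `tr ((1 - XY) B_i (1 - YX) C_j)` is nonzero (where the `C_j` span
`J*`), then an explicit element of `J` of larger rank has a partner in `J*` (found by linear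
algebra); this happens at most `n` times.  If all test values vanish, then
`det (∑ x_i B_i) = 0` if and only if `det X = 0`.

For an arbitrary `J` the same procedure decides whether `J` is, in suitable coordinates over some
extension field, a Jordan algebra of matrices which contains the unit matrix.
-/

open Matrix

namespace Pool.Agent.Results.MP_64d474_lc.JordanCoordinates

universe w

/-- The symbolic matrix `∑ i, x_i B_i` with entries in `K[x_i : i ∈ σ]`. -/
noncomputable def symbolicMatrix {K n σ : Type*} [Field K] [Fintype σ]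
    (B : σ → Matrix n n K) : Matrix n n (MvPolynomial σ K) :=
  ∑ i, (MvPolynomial.X i : MvPolynomial σ K) • (B i).map MvPolynomial.C

/-- the span of the coefficient matrices -/
def coeffSpace {K n σ : Type*} [Field K] (B : σ → Matrix n n K) : Submodule K (Matrix n n K) :=
  Submodule.span K (Set.range B)

/-- the quadratic dual: all `Y` with `X Y X ∈ J` for all `X ∈ J`, where `J = coeffSpace B` -/
def quadDual {K n σ : Type*} [Field K] [Fintype n] (B : σ → Matrix n n K) :
    Submodule K (Matrix n n K) where
  carrier := {Y | ∀ X ∈ coeffSpace B, X * Y * X ∈ coeffSpace B}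
  add_mem' := by
    intro a b ha hb X hX
    rw [mul_add, add_mul]
    exact (coeffSpace B).add_mem (ha X hX) (hb X hX)
  zero_mem' := by
    intro X hX
    simp
  smul_mem' := by
    intro c a ha X hX
    rw [mul_smul_comm, smul_mul_assoc]
    exact (coeffSpace B).smul_mem c (ha X hX)

/-- `X` is in the span `J`, `Y` in the quadratic dual, and each is an inner inverse of the other. -/
structure RegularPair {K n σ : Type*} [Field K] [Fintype n] (B : σ → Matrix n n K)
    (X Y : Matrix n n K) : Prop where
  memX : X ∈ coeffSpace B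
  memY : Y ∈ quadDual B
  XYX : X * Y * X = X
  YXY : Y * X * Y = Y

/-- the test value `tr ((1 - XY) Z (1 - YX) W)` -/
def test {K n : Type*} [Field K] [Fintype n] [DecidableEq n] (X Y Z W : Matrix n n K) : K :=
  ((1 - X * Y) * Z * (1 - Y * X) * W).trace

/-- the augmented matrix `X + (Z' W) ^ n Z'`, where `Z' = (1 - XY) Z (1 - YX)` -/
def next {K n : Type*} [Field K] [Fintype n] [DecidableEq n] (X Y Z W : Matrix n n K) :
    Matrix n n K :=
  X + ((1 - X * Y) * Z * (1 - Y * X) * W) ^ Fintype.card n * ((1 - X * Y) * Z * (1 - Y * X))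

/-- the `L`-span of the matrices `P B_i Q` -/
def coordSpace {K n σ L : Type*} [Field K] [Fintype n] [Field L] [Algebra K L]
    (B : σ → Matrix n n K) (P Q : Matrix n n L) : Submodule L (Matrix n n L) :=
  Submodule.span L (Set.range fun i => P * (B i).map (algebraMap K L) * Q)

/-- In suitable coordinates over `L` the space is closed under squares or under cubes. -/
def JordanIn {K n σ : Type*} [Field K] [Fintype n] [DecidableEq n] (B : σ → Matrix n n K)
    (L : Type*) [Field L] [Algebra K L] : Prop :=
  ∃ P Q : Matrix n n L, IsUnit P ∧ IsUnit Q ∧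
    ((∀ A ∈ coordSpace B P Q, A ^ 2 ∈ coordSpace B P Q) ∨
      (∀ A ∈ coordSpace B P Q, A ^ 3 ∈ coordSpace B P Q))

/-- In suitable coordinates over `L` the space is a Jordan algebra containing the unit matrix. -/
def UnitalJordanIn {K n σ : Type*} [Field K] [Fintype n] [DecidableEq n] (B : σ → Matrix n n K)
    (L : Type*) [Field L] [Algebra K L] : Prop :=
  ∃ P Q : Matrix n n L, IsUnit P ∧ IsUnit Q ∧ 1 ∈ coordSpace B P Q ∧
    ∀ A ∈ coordSpace B P Q, A ^ 2 ∈ coordSpace B P Q

section proofs
variable {K n σ : Type*} [Field K] [CharZero K] [Fintype n] [DecidableEq n] [Fintype σ]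

lemma mem_coeffSpace {B : σ → Matrix n n K} {X : Matrix n n K} :
    X ∈ coeffSpace B ↔ ∃ c : σ → K, ∑ i, c i • B i = X :=
  Submodule.mem_span_range_iff_exists_fun K

lemma eval_symbolic {L : Type*} [Field L] [Algebra K L] (B : σ → Matrix n n K) (c : σ → L) :
    MvPolynomial.eval₂Hom (algebraMap K L) c (symbolicMatrix B).det
      = (∑ i, c i • (B i).map (algebraMap K L)).det := by
  rw [RingHom.map_det]
  congr 1
  rw [symbolicMatrix, map_sum]
  refine Finset.sum_congr rfl fun i _ => ?_
  ext a b
  simp [Matrix.smul_apply]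

lemma det_ne_zero_iff (B : σ → Matrix n n K) :
    (symbolicMatrix B).det ≠ 0 ↔ ∃ X ∈ coeffSpace B, IsUnit X := by
  have hev : ∀ c : σ → K, MvPolynomial.eval c (symbolicMatrix B).det
      = (∑ i, c i • B i).det := by
    intro c
    rw [RingHom.map_det]
    congr 1
    rw [symbolicMatrix, map_sum]
    refine Finset.sum_congr rfl fun i _ => ?_
    ext a b
    simp [Matrix.smul_apply]
  constructor
  · intro h
    by_contra hcon
    apply h
    apply MvPolynomial.funext
    intro c
    rw [hev, map_zero]
    by_contra h0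
    exact hcon ⟨_, mem_coeffSpace.2 ⟨c, rfl⟩,
      (Matrix.isUnit_iff_isUnit_det _).2 (isUnit_iff_ne_zero.2 h0)⟩
  · rintro ⟨X, hX, hu⟩ h
    obtain ⟨c, rfl⟩ := mem_coeffSpace.1 hX
    have := hev c
    rw [h, map_zero] at this
    exact ((Matrix.isUnit_iff_isUnit_det _).1 hu).ne_zero this.symm

lemma quadDual_eq (B : σ → Matrix n n K) : quadDual B = H523R3.JC.dual (coeffSpace B) := rfl

lemma quadDual_iff (B : σ → Matrix n n K) (Y : Matrix n n K) :
    Y ∈ quadDual B ↔ ∀ i j, B i * Y * B j + B j * Y * B i ∈ coeffSpace B := by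
  constructor
  · intro h i j
    exact H523R3.JC.lin_J (Submodule.subset_span ⟨i, rfl⟩) (Submodule.subset_span ⟨j, rfl⟩) h
  · intro h X hX
    obtain ⟨c, rfl⟩ := mem_coeffSpace.1 hX
    have h1 : ∑ i, ∑ j, (c i * c j) • (B i * Y * B j + B j * Y * B i) ∈ coeffSpace B :=
      Submodule.sum_mem _ fun i _ => Submodule.sum_mem _ fun j _ =>
        Submodule.smul_mem _ _ (h i j)
    have h2 : (∑ i, c i • B i) * Y * (∑ i, c i • B i) =
        ∑ i, ∑ j, (c i * c j) • (B i * Y * B j) := by
      rw [Finset.sum_mul, Finset.sum_mul]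
      refine Finset.sum_congr rfl fun i _ => ?_
      rw [Finset.mul_sum]
      refine Finset.sum_congr rfl fun j _ => ?_
      rw [smul_mul_assoc, smul_mul_assoc, mul_smul_comm, smul_smul]
    have h3 : ∑ i, ∑ j, (c i * c j) • (B i * Y * B j + B j * Y * B i) =
        (2 : K) • ((∑ i, c i • B i) * Y * (∑ i, c i • B i)) := by
      rw [h2, two_smul]
      have h4 : ∑ i, ∑ j, (c i * c j) • (B j * Y * B i) =
          ∑ i, ∑ j, (c i * c j) • (B i * Y * B j) := by
        rw [Finset.sum_comm]
        refine Finset.sum_congr rfl fun i _ => Finset.sum_congr rfl fun j _ => ?_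
        rw [mul_comm]
      conv_rhs => rw [← h4]
      conv_rhs => lhs; rw [h4]
      simp only [smul_add, Finset.sum_add_distrib]
    rw [h3] at h1
    have h4 := Submodule.smul_mem _ ((2 : K)⁻¹) h1
    rwa [smul_smul, inv_mul_cancel₀ two_ne_zero, one_smul] at h4

/-- tests at spanning sets suffice -/
lemma test_all {B : σ → Matrix n n K} {X Y : Matrix n n K} {𝒞 : Set (Matrix n n K)}
    (h : ∀ i, ∀ W ∈ 𝒞, test X Y (B i) W = 0) :
    ∀ Z ∈ coeffSpace B, ∀ W ∈ Submodule.span K 𝒞, test X Y Z W = 0 := by
  have h1 : ∀ i, ∀ W ∈ Submodule.span K 𝒞, test X Y (B i) W = 0 := by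
    intro i W hW
    induction hW using Submodule.span_induction with
    | mem x hx => exact h i x hx
    | zero => simp [test]
    | add x y _ _ hx hy =>
      rw [test] at hx hy ⊢
      rw [mul_add, Matrix.trace_add, hx, hy, add_zero]
    | smul c x _ hx =>
      rw [test] at hx ⊢
      rw [mul_smul_comm, Matrix.trace_smul, hx, smul_zero]
  intro Z hZ W hW
  induction hZ using Submodule.span_induction with
  | mem x hx => obtain ⟨i, rfl⟩ := hx; exact h1 i W hW
  | zero => simp [test]
  | add x y _ _ hx hy =>
    rw [test] at hx hy ⊢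
    rw [mul_add, add_mul, add_mul, Matrix.trace_add, hx, hy, add_zero]
  | smul c x _ hx =>
    rw [test] at hx ⊢
    rw [mul_smul_comm, smul_mul_assoc, smul_mul_assoc, Matrix.trace_smul, hx, smul_zero]

lemma cube_of_square {L : Type*} [Field L] [CharZero L] {N : Submodule L (Matrix n n L)}
    (h : ∀ A ∈ N, A ^ 2 ∈ N) : ∀ A ∈ N, A ^ 3 ∈ N := by
  intro A hA
  have h2 := h A hA
  have h3 := N.sub_mem (N.sub_mem (h _ (N.add_mem hA h2)) h2) (h _ h2)
  have e : (A + A ^ 2) ^ 2 - A ^ 2 - (A ^ 2) ^ 2 = (2 : L) • A ^ 3 := by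
    rw [two_smul]
    noncomm_ring
  rw [e] at h3
  have h4 := N.smul_mem ((2 : L)⁻¹) h3
  rwa [smul_smul, inv_mul_cancel₀ two_ne_zero, one_smul] at h4

/-- the certificate -/
lemma unit_of_tests {B : σ → Matrix n n K} {X Y : Matrix n n K} (h : RegularPair B X Y)
    (ht : ∀ Z ∈ coeffSpace B, ∀ W ∈ quadDual B, test X Y Z W = 0)
    {L : Type*} [Field L] [Algebra K L] (hL : JordanIn B L) (hne : (symbolicMatrix B).det ≠ 0) :
    X.det ≠ 0 := by
  have : CharZero L := charZero_of_injective_algebraMap (algebraMap K L).injective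
  obtain ⟨P, Q, hP, hQ, hN⟩ := hL
  have hN3 : ∀ A ∈ coordSpace B P Q, A ^ 3 ∈ coordSpace B P Q := by
    rcases hN with hN | hN
    · exact cube_of_square hN
    · exact hN
  obtain ⟨C, hC, hCu⟩ := (det_ne_zero_iff B).1 hne
  obtain ⟨⟨C₀, D, hCD, hDC⟩, h0⟩ := hCu
  simp only at h0
  subst h0
  have hD : D ∈ H523R3.JC.dual (coeffSpace B) :=
    H523R3.JC.inv_mem_dual (L := L) B hP hQ hN3 hC hCD
  by_contra hdet
  have hXY : X * Y ≠ 1 := by
    intro h1
    have h2 := congrArg Matrix.det h1
    rw [Matrix.det_mul, Matrix.det_one, hdet, zero_mul] at h2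
    exact zero_ne_one h2
  obtain ⟨S, hS, V, hV, hSV⟩ := H523R3.JC.certificate h.memX h.memY h.XYX h.YXY hC hD hCD hXY
  exact hSV (ht S hS V hV)

end proofs

/-- **Symbolic determinants of matrix spaces which are Jordan systems in unknown coordinates.** -/
theorem result {K n σ : Type*} [Field K] [CharZero K] [Fintype n] [DecidableEq n] [Fintype σ]
    (B : σ → Matrix n n K) :
    -- the quadratic dual is given by linear equations
    (∀ Y, Y ∈ quadDual B ↔ ∀ i j, B i * Y * B j + B j * Y * B i ∈ coeffSpace B) ∧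
    -- the start of the procedure
    RegularPair B 0 0 ∧
    -- the partner of `X` is found by solving the linear equations `X Y X = X` in the quadratic dual
    (∀ X ∈ coeffSpace B, ∀ Y ∈ quadDual B, X * Y * X = X → RegularPair B X (Y * X * Y)) ∧
    -- augmentation
    (∀ X Y, RegularPair B X Y → ∀ Z ∈ coeffSpace B, ∀ W ∈ quadDual B, test X Y Z W ≠ 0 →
      X.rank < (next X Y Z W).rank ∧ ∃ Y', RegularPair B (next X Y Z W) Y') ∧
    -- the end of the procedure: all test values at spanning families are zero
    (∀ X Y, RegularPair B X Y → ∀ 𝒞 : Set (Matrix n n K), Submodule.span K 𝒞 = quadDual B →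
      (∀ i, ∀ W ∈ 𝒞, test X Y (B i) W = 0) →
        -- decision
        (∀ (L : Type w) [Field L] [Algebra K L], JordanIn B L →
          ((symbolicMatrix B).det = 0 ↔ X.det = 0)) ∧
        -- recognition of unital Jordan algebras in unknown coordinates
        (∀ (L : Type w) [Field L] [Algebra K L], UnitalJordanIn B L → X.det ≠ 0) ∧
        (X.det ≠ 0 → UnitalJordanIn B K)) ∧
    -- singularity certificates
    (∀ (L : Type w) [Field L] [Algebra K L], JordanIn B L →
      ((symbolicMatrix B).det = 0 ↔ ∃ X Y, RegularPair B X Y ∧ X.det = 0 ∧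
        ∀ Z ∈ coeffSpace B, ∀ W ∈ quadDual B, test X Y Z W = 0)) := by
  have haug : ∀ X Y, RegularPair B X Y → ∀ Z ∈ coeffSpace B, ∀ W ∈ quadDual B,
      test X Y Z W ≠ 0 →
      X.rank < (next X Y Z W).rank ∧ ∃ Y', RegularPair B (next X Y Z W) Y' := by
    intro X Y h Z hZ W hW ht
    obtain ⟨h1, h2, Y', h3, h4, h5⟩ :=
      H523R3.JC.augment (J := coeffSpace B) h.memX h.memY h.XYX h.YXY hZ hW ht
    exact ⟨h2, Y', ⟨h1, h3, h4, h5⟩⟩
  have hstart : RegularPair B 0 0 :=
    ⟨Submodule.zero_mem _, Submodule.zero_mem _, by simp, by simp⟩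
  have hback : ∀ X ∈ coeffSpace B, X.det ≠ 0 → (symbolicMatrix B).det ≠ 0 := fun X hX hd =>
    (det_ne_zero_iff B).2 ⟨X, hX, (Matrix.isUnit_iff_isUnit_det _).2 (isUnit_iff_ne_zero.2 hd)⟩
  refine ⟨quadDual_iff B, hstart, ?_, haug, ?_, ?_⟩
  · intro X hX Y hY h
    obtain ⟨h1, h2⟩ := H523R3.JC.reflexive h
    exact ⟨hX, H523R3.JC.dual_closed hX hY, h1, h2⟩
  · intro X Y h 𝒞 h𝒞 ht
    have hta : ∀ Z ∈ coeffSpace B, ∀ W ∈ quadDual B, test X Y Z W = 0 := by
      rw [← h𝒞]
      exact test_all ht
    refine ⟨?_, ?_, ?_⟩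
    · intro L _ _ hL
      constructor
      · intro h0
        by_contra hd
        exact hback X h.memX hd h0
      · intro h0
        by_contra hne
        exact unit_of_tests h hta hL hne h0
    · intro L _ _ hL
      obtain ⟨P, Q, hP, hQ, h1, hN⟩ := hL
      have hJ : JordanIn B L := ⟨P, Q, hP, hQ, Or.inl hN⟩
      refine unit_of_tests h hta hJ ?_
      intro h0
      obtain ⟨l, hl⟩ := (Submodule.mem_span_range_iff_exists_fun L).1 h1
      have h2 := eval_symbolic B l
      rw [h0, map_zero] at h2
      have h3 : P * (∑ i, l i • (B i).map (algebraMap K L)) * Q = 1 := by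
        rw [← hl, Finset.mul_sum, Finset.sum_mul]
        refine Finset.sum_congr rfl fun i _ => ?_
        rw [mul_smul_comm, smul_mul_assoc]
      have h4 := congrArg Matrix.det h3
      rw [Matrix.det_mul, Matrix.det_mul, ← h2, mul_zero, zero_mul, Matrix.det_one] at h4
      exact zero_ne_one h4
    · intro hd
      have hXu : IsUnit X := (Matrix.isUnit_iff_isUnit_det _).2 (isUnit_iff_ne_zero.2 hd)
      have hYX : Y * X = 1 := by
        have h1 : X * (Y * X) = X * 1 := by rw [← mul_assoc, h.XYX, mul_one]
        exact hXu.mul_left_cancel h1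
      have hXY : X * Y = 1 := mul_eq_one_comm.1 hYX
      have hmap : ∀ Z : Matrix n n K, Z.map (algebraMap K K) = Z := by
        intro Z
        ext
        simp
      refine ⟨1, Y, isUnit_one, ⟨⟨Y, X, hYX, hXY⟩, rfl⟩, ?_, ?_⟩
      · have h1 := H523R3.JC.coord_mem (L := K) B 1 Y h.memX
        rw [hmap, one_mul, hXY] at h1
        exact h1
      · intro A hA
        obtain ⟨l, hl⟩ := (Submodule.mem_span_range_iff_exists_fun K).1 hA
        have hA' : A = (∑ i, l i • B i) * Y := by
          rw [← hl, Finset.sum_mul]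
          refine Finset.sum_congr rfl fun i _ => ?_
          rw [hmap, one_mul, smul_mul_assoc]
        have hZ : ∑ i, l i • B i ∈ coeffSpace B := mem_coeffSpace.2 ⟨l, rfl⟩
        have h1 := H523R3.JC.coord_mem (L := K) B 1 Y (h.memY _ hZ)
        rw [hmap, one_mul] at h1
        have h2 : A ^ 2 = (∑ i, l i • B i) * Y * (∑ i, l i • B i) * Y := by
          rw [sq, hA', ← mul_assoc]
        rw [h2]
        exact h1
  · intro L _ _ hL
    constructor
    · intro h0
      classical
      have hbd : ∀ r, (∃ X Y, RegularPair B X Y ∧ X.rank = r) → r ≤ Fintype.card n := by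
        rintro r ⟨X, Y, -, rfl⟩
        exact X.rank_le_card_width
      have hex : ∃ X Y, RegularPair B X Y ∧ X.rank = 0 := ⟨0, 0, hstart, Matrix.rank_zero⟩
      have hspec := Nat.findGreatest_spec (P := fun r => ∃ X Y, RegularPair B X Y ∧ X.rank = r)
        (hbd 0 hex) hex
      obtain ⟨X, Y, hXY, hr⟩ := hspec
      refine ⟨X, Y, hXY, ?_, ?_⟩
      · by_contra hd
        exact hback X hXY.memX hd h0
      · intro Z hZ W hW
        by_contra hne
        obtain ⟨h1, Y', h2⟩ := haug X Y hXY Z hZ W hW hne
        have h3 := Nat.le_findGreatest (P := fun r => ∃ X Y, RegularPair B X Y ∧ X.rank = r)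
          (hbd _ ⟨_, Y', h2, rfl⟩) ⟨_, Y', h2, rfl⟩
        omega
    · rintro ⟨X, Y, hXY, hd, ht⟩
      by_contra hne
      exact unit_of_tests hXY ht hL hne hd

end Pool.Agent.Results.MP_64d474_lc.JordanCoordinates
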