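import Mathlib
import Pool.Agent.H800R3.LTS2

/-!
# Symbolic determinants of matrix Lie triple systems

A matrix space `𝓑` over a field of characteristic zero is a Lie triple system if
`[[a, b], c] ∈ 𝓑` for all `a, b, c ∈ 𝓑`.  Examples: all matrix Lie algebras, all special Jordan
algebras and Jordan triple systems, the `-1` eigenspace of an involution of a matrix Lie algebra.
We prove the correctness of a deterministic polynomial-time procedure which decides whether the
symbolic determinant of a Lie triple system vanishes.

For `x ∈ 𝓑` let `V` be the generalised kernel of `x`, and let `𝓑₀` be the space of all `y ∈ 𝓑` which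
are annihilated by a power of `ad x`; its elements preserve `V`.  If `y ∈ 𝓑₀` is not nilpotent on
`V`, then `x + m y` has a smaller generalised kernel for some `m ∈ {0, …, n}` (and the coefficients
of the new point can be replaced, one at a time, by numbers in `{0, …, n}`).  Otherwise the
symbolic determinant vanishes if and only if `det x = 0`; and it suffices to test the elements and
the sums of two elements of a basis of `𝓑₀`.
-/

set_option autoImplicit false

namespace Pool.Agent.Results.MP_64d474_lc.LieTriple

open Matrix

/-- The symbolic matrix `∑ i, x_i B_i` with entries in `K[x_i : i ∈ σ]`. -/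
noncomputable def symbolicMatrix {K n σ : Type*} [Field K] [Fintype σ]
    (B : σ → Matrix n n K) : Matrix n n (MvPolynomial σ K) :=
  ∑ i, (MvPolynomial.X i : MvPolynomial σ K) • (B i).map MvPolynomial.C

/-- the span of the coefficient matrices -/
def coeffSpace {K n σ : Type*} [Field K] (B : σ → Matrix n n K) : Submodule K (Matrix n n K) :=
  Submodule.span K (Set.range B)

/-- The coefficient matrices span a Lie triple system. -/
def IsLieTriple {K n σ : Type*} [Field K] [Fintype n] (B : σ → Matrix n n K) : Prop :=
  ∀ i j k, (B i * B j - B j * B i) * B k - B k * (B i * B j - B j * B i) ∈ coeffSpace B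

/-- the map `y ↦ x y - y x` -/
def adMap {K n : Type*} [Field K] [Fintype n] [DecidableEq n] (x : Matrix n n K) :
    Module.End K (Matrix n n K) :=
  LinearMap.mulLeft K x - LinearMap.mulRight K x

/-- the elements of the space which are annihilated by a power of `ad x` (equivalently, by the
power with exponent `n ^ 2`) -/
def localPart {K n σ : Type*} [Field K] [Fintype n] [DecidableEq n] (B : σ → Matrix n n K)
    (x : Matrix n n K) : Submodule K (Matrix n n K) :=
  coeffSpace B ⊓ LinearMap.ker (adMap x ^ (Fintype.card n * Fintype.card n))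

/-- the generalised kernel of `x`: the kernel of `x ^ n` -/
def nilKernel {K n : Type*} [Field K] [Fintype n] [DecidableEq n] (x : Matrix n n K) :
    Submodule K (n → K) :=
  LinearMap.ker ((x ^ Fintype.card n).mulVecLin)

/-- `y ^ n` annihilates the generalised kernel of `x` -/
def NilOn {K n : Type*} [Field K] [Fintype n] [DecidableEq n] (x y : Matrix n n K) : Prop :=
  ∀ v ∈ nilKernel x, (y ^ Fintype.card n) *ᵥ v = 0

section proofs

variable {K n σ : Type*} [Field K] [Fintype n] [DecidableEq n]

omit [DecidableEq n] in
theorem IsLieTriple.all {B : σ → Matrix n n K} (h : IsLieTriple B) :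
    ∀ a ∈ coeffSpace B, ∀ b ∈ coeffSpace B, ∀ c ∈ coeffSpace B,
      (a * b - b * a) * c - c * (a * b - b * a) ∈ coeffSpace B := by
  intro a ha b hb c hc
  unfold coeffSpace at ha hb hc
  induction ha using Submodule.span_induction with
  | mem a ha =>
    obtain ⟨i, rfl⟩ := ha
    induction hb using Submodule.span_induction with
    | mem b hb =>
      obtain ⟨j, rfl⟩ := hb
      induction hc using Submodule.span_induction with
      | mem c hc => obtain ⟨k, rfl⟩ := hc; exact h i j k
      | zero => simp
      | add x y _ _ hx hy =>
        convert (coeffSpace B).add_mem hx hy using 1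
        noncomm_ring
      | smul t x _ hx =>
        rw [Matrix.mul_smul, Matrix.smul_mul, ← smul_sub]
        exact (coeffSpace B).smul_mem t hx
    | zero => simp
    | add x y _ _ hx hy =>
      convert (coeffSpace B).add_mem hx hy using 1
      noncomm_ring
    | smul t x _ hx =>
      rw [Matrix.mul_smul, Matrix.smul_mul, ← smul_sub, Matrix.mul_smul, Matrix.smul_mul,
        ← smul_sub]
      exact (coeffSpace B).smul_mem t hx
  | zero => simp
  | add x y _ _ hx hy =>
    convert (coeffSpace B).add_mem hx hy using 1
    noncomm_ring
  | smul t x _ hx =>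
    rw [Matrix.mul_smul, Matrix.smul_mul, ← smul_sub, Matrix.mul_smul, Matrix.smul_mul,
      ← smul_sub]
    exact (coeffSpace B).smul_mem t hx

theorem det_eq_zero_of_nilKernel {x : Matrix n n K} (h : nilKernel x ≠ ⊥) : x.det = 0 := by
  obtain ⟨v, hv, hv0⟩ := Submodule.exists_mem_ne_zero_of_ne_bot h
  have h2 : (x ^ Fintype.card n).det = 0 := by
    rw [← Matrix.exists_mulVec_eq_zero_iff]
    exact ⟨v, hv0, hv⟩
  rw [Matrix.det_pow] at h2
  exact eq_zero_of_pow_eq_zero h2

theorem nilKernel_ne_bot {x : Matrix n n K} (h : x.det = 0) : nilKernel x ≠ ⊥ := by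
  obtain ⟨v, hv0, hv⟩ := Matrix.exists_mulVec_eq_zero_iff.2 h
  intro hbot
  apply hv0
  have : v ∈ nilKernel x := H800R3.LTS.ker_pow_stable x (k := 1) (by rw [pow_one]; exact hv)
  rw [hbot] at this
  exact this

theorem stop [CharZero K] [Fintype σ] {B : σ → Matrix n n K} (hB : IsLieTriple B)
    {x : Matrix n n K} (hx : x ∈ coeffSpace B) (hnil : ∀ y ∈ localPart B x, NilOn x y) :
    (symbolicMatrix B).det = 0 ↔ x.det = 0 := by
  constructor
  · intro h
    by_contra hdet
    exact (H800R3.Slice.symbolic_ne_zero_iff B).2 ⟨x, hx, hdet⟩ h
  · intro h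
    by_contra hne
    obtain ⟨b, hb, hdet⟩ := (H800R3.Slice.symbolic_ne_zero_iff B).1 hne
    exact hdet (H800R3.LTS.stop (B := coeffSpace B) hB.all hx (nilKernel_ne_bot h) hnil b hb)

end proofs

/-- **Symbolic determinants of matrix Lie triple systems.** Let the `n × n` matrices `B i` over a
field of characteristic zero span a Lie triple system.
(1) For every point `x` of the span, and every spanning family `Y` of the local part at `x`:
if all `Y i` and all `Y i + Y j` are nilpotent on the generalised kernel of `x`, the symbolic
determinant vanishes if and only if `det x = 0`; otherwise one of them, say `y`, is not nilpotent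
there, and for each such `y` in the local part one of the points `x + m y`, `0 ≤ m ≤ n`, has a
generalised kernel of smaller dimension.
(2) Each coefficient of a point of the span can be replaced by one of the numbers `0, …, n` such
that the dimension of the generalised kernel does not grow.
(3) The symbolic determinant vanishes if and only if there is a singular point `x` of the span such
that all elements of its local part are nilpotent on the generalised kernel of `x`. -/
theorem result {K n σ : Type*} [Field K] [CharZero K] [Fintype n] [DecidableEq n] [Fintype σ]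
    [DecidableEq σ] (B : σ → Matrix n n K) (hB : IsLieTriple B) :
    (∀ x ∈ coeffSpace B,
      (∀ (ι : Type) (Y : ι → Matrix n n K), Submodule.span K (Set.range Y) = localPart B x →
        (∀ i, NilOn x (Y i)) → (∀ i j, NilOn x (Y i + Y j)) →
          ((symbolicMatrix B).det = 0 ↔ x.det = 0)) ∧
      (∀ y ∈ localPart B x, ¬ NilOn x y → ∃ m : ℕ, m ≤ Fintype.card n ∧
        x + (m : K) • y ∈ coeffSpace B ∧
        Module.finrank K (nilKernel (x + (m : K) • y)) < Module.finrank K (nilKernel x))) ∧
    (∀ (c : σ → K) (i : σ), ∃ m : ℕ, m ≤ Fintype.card n ∧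
      Module.finrank K (nilKernel (∑ j, Function.update c i (m : K) j • B j)) ≤
        Module.finrank K (nilKernel (∑ j, c j • B j))) ∧
    ((symbolicMatrix B).det = 0 ↔
      ∃ x ∈ coeffSpace B, x.det = 0 ∧ ∀ y ∈ localPart B x, NilOn x y) := by
  have haug : ∀ x ∈ coeffSpace B, ∀ y ∈ localPart B x, ¬ NilOn x y → ∃ m : ℕ,
      m ≤ Fintype.card n ∧ x + (m : K) • y ∈ coeffSpace B ∧
        Module.finrank K (nilKernel (x + (m : K) • y)) < Module.finrank K (nilKernel x) := by
    intro x hx y hy hne
    unfold NilOn at hne
    push Not at hne
    obtain ⟨v, hv, hv0⟩ := hne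
    obtain ⟨m, hm, hlt⟩ := H800R3.LTS.augment (x := x) (y := y) hy.2 hv hv0
    exact ⟨m, hm, (coeffSpace B).add_mem hx ((coeffSpace B).smul_mem _ hy.1), hlt⟩
  refine ⟨fun x hx => ⟨fun ι Y hY h1 h2 => ?_, haug x hx⟩, fun c i => H800R3.LTS.round B c i, ?_⟩
  · exact stop hB hx (H800R3.LTS.test (B := coeffSpace B) hB.all x Y hY h1 h2)
  · constructor
    · intro h0
      obtain ⟨x, hx, hmin⟩ : ∃ x ∈ coeffSpace B, ∀ z ∈ coeffSpace B,
          Module.finrank K (nilKernel x) ≤ Module.finrank K (nilKernel z) := by
        obtain ⟨x, hx, hmin⟩ := (measure fun z : Matrix n n K =>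
          Module.finrank K (nilKernel z)).wf.has_min (coeffSpace B : Set (Matrix n n K))
          ⟨0, (coeffSpace B).zero_mem⟩
        exact ⟨x, hx, fun z hz => not_lt.1 (hmin z hz)⟩
      have hnil : ∀ y ∈ localPart B x, NilOn x y := by
        intro y hy
        by_contra hne
        obtain ⟨m, _, hmem, hlt⟩ := haug x hx y hy hne
        exact absurd (hmin _ hmem) (not_le.2 hlt)
      exact ⟨x, hx, (stop hB hx hnil).1 h0, hnil⟩
    · rintro ⟨x, hx, hdet, hnil⟩
      exact (stop hB hx hnil).2 hdet

end Pool.Agent.Results.MP_64d474_lc.LieTriple
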