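import Mathlib
import Pool.Agent.H800R3.SliceTools

/-!
# Symbolic determinants and the infinitesimal symmetries of a matrix space

A pair `(Z, Z')` of `n × n` matrices is an infinitesimal symmetry of the space `𝓑` spanned by the
coefficient matrices `B_i` if `Z Y - Y Z' ∈ 𝓑` for all `Y ∈ 𝓑` (a system of linear equations for
`(Z, Z')`).  For `x ∈ 𝓑` the matrices `Z x - x Z'` form the tangent space of the orbit of `x`; let
`c` be its codimension in `𝓑`.  We prove that the symbolic determinant of `𝓑` can be tested on
`(n + 1) ^ c` explicit points: on the slice through `x` spanned by any `c` of the matrices `B_i`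
which complement the tangent space.
-/

set_option autoImplicit false

namespace Pool.Agent.Results.MP_64d474_lc.OrbitSlice

open Matrix

/-- The symbolic matrix `∑ i, x_i B_i` with entries in `K[x_i : i ∈ σ]`. -/
noncomputable def symbolicMatrix {K n σ : Type*} [Field K] [Fintype σ]
    (B : σ → Matrix n n K) : Matrix n n (MvPolynomial σ K) :=
  ∑ i, (MvPolynomial.X i : MvPolynomial σ K) • (B i).map MvPolynomial.C

/-- the span of the coefficient matrices -/
def coeffSpace {K n σ : Type*} [Field K] (B : σ → Matrix n n K) : Submodule K (Matrix n n K) :=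
  Submodule.span K (Set.range B)

/-- `(Z, Z')` is an infinitesimal symmetry of the space spanned by the `B i`. -/
def IsSymmetry {K n σ : Type*} [Field K] [Fintype n] (B : σ → Matrix n n K)
    (Z Z' : Matrix n n K) : Prop :=
  ∀ i, Z * B i - B i * Z' ∈ coeffSpace B

/-- the tangent space at `x` of the orbit of `x`: all `Z x - x Z'`, `(Z, Z')` a symmetry -/
def orbitTangent {K n σ : Type*} [Field K] [Fintype n] (B : σ → Matrix n n K)
    (x : Matrix n n K) : Submodule K (Matrix n n K) where
  carrier := {y | ∃ Z Z' : Matrix n n K, IsSymmetry B Z Z' ∧ y = Z * x - x * Z'}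
  zero_mem' := ⟨0, 0, fun i => by simp, by simp⟩
  add_mem' := by
    rintro _ _ ⟨Z, Z', h, rfl⟩ ⟨W, W', h', rfl⟩
    refine ⟨Z + W, Z' + W', fun i => ?_, ?_⟩
    · have := (coeffSpace B).add_mem (h i) (h' i)
      rw [Matrix.add_mul, Matrix.mul_add]
      convert this using 1
      abel
    · rw [Matrix.add_mul, Matrix.mul_add]
      abel
  smul_mem' := by
    rintro c _ ⟨Z, Z', h, rfl⟩
    refine ⟨c • Z, c • Z', fun i => ?_, ?_⟩
    · rw [Matrix.smul_mul, Matrix.mul_smul, ← smul_sub]
      exact (coeffSpace B).smul_mem c (h i)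
    · rw [Matrix.smul_mul, Matrix.mul_smul, ← smul_sub]

section proofs

variable {K n σ : Type*} [Field K] [Fintype n] [DecidableEq n]

omit [DecidableEq n] in
theorem IsSymmetry.all {B : σ → Matrix n n K} {Z Z' : Matrix n n K} (h : IsSymmetry B Z Z')
    {y : Matrix n n K} (hy : y ∈ coeffSpace B) : Z * y - y * Z' ∈ coeffSpace B := by
  unfold coeffSpace at hy
  induction hy using Submodule.span_induction with
  | mem y hy => obtain ⟨i, rfl⟩ := hy; exact h i
  | zero => simp
  | add a b _ _ ha hb =>
    have := (coeffSpace B).add_mem ha hb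
    rw [Matrix.mul_add, Matrix.add_mul]
    convert this using 1
    abel
  | smul c a _ ha =>
    rw [Matrix.smul_mul, Matrix.mul_smul, ← smul_sub]
    exact (coeffSpace B).smul_mem c ha

omit [DecidableEq n] in
theorem orbitTangent_le (B : σ → Matrix n n K) {x : Matrix n n K} (hx : x ∈ coeffSpace B) :
    orbitTangent B x ≤ coeffSpace B := by
  rintro _ ⟨Z, Z', h, rfl⟩
  exact h.all hx

theorem exists_complement [Fintype σ] (B : σ → Matrix n n K)
    {T : Submodule K (Matrix n n K)} (hT : T ≤ coeffSpace B) :
    ∃ J : Finset σ, J.card = Module.finrank K (coeffSpace B) - Module.finrank K T ∧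
      coeffSpace B ≤ T ⊔ Submodule.span K (B '' (J : Set σ)) := by
  classical
  obtain ⟨κ, a, ha, hspan, hli⟩ := exists_linearIndependent' K (fun i => T.mkQ (B i))
  have : Finite κ := Finite.of_injective a ha
  have : Fintype κ := Fintype.ofFinite κ
  have hmap : Submodule.span K (Set.range (fun i => T.mkQ (B i))) = (coeffSpace B).map T.mkQ := by
    unfold coeffSpace
    rw [Submodule.map_span, ← Set.range_comp]
    rfl
  have hcard : Fintype.card κ = Module.finrank K ((coeffSpace B).map T.mkQ) := by
    rw [← hmap, ← hspan]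
    exact (finrank_span_eq_card hli).symm
  refine ⟨Finset.univ.image a, ?_, ?_⟩
  · rw [Finset.card_image_of_injective _ ha, Finset.card_univ, hcard]
    have h1 := (coeffSpace B).finrank_map_subtype_eq (T.comap (coeffSpace B).subtype)
    have h2 := (T.comap (coeffSpace B).subtype).finrank_quotient_add_finrank
    have h3 : Module.finrank K ((coeffSpace B).map T.mkQ) =
        Module.finrank K (coeffSpace B ⧸ T.comap (coeffSpace B).subtype) := by
      have hk : LinearMap.ker (T.mkQ ∘ₗ (coeffSpace B).subtype) =
          T.comap (coeffSpace B).subtype := by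
        rw [LinearMap.ker_comp, Submodule.ker_mkQ]
      have hr : LinearMap.range (T.mkQ ∘ₗ (coeffSpace B).subtype) = (coeffSpace B).map T.mkQ := by
        rw [LinearMap.range_comp, Submodule.range_subtype]
      rw [← hr, ← hk]
      exact (LinearEquiv.finrank_eq (LinearMap.quotKerEquivRange _)).symm
    have h4 : (T.comap (coeffSpace B).subtype).map (coeffSpace B).subtype = T := by
      rw [Submodule.map_comap_subtype, inf_eq_right.2 hT]
    rw [h4] at h1
    omega
  · intro b hb
    have hb' : T.mkQ b ∈ Submodule.span K (Set.range ((fun i => T.mkQ (B i)) ∘ a)) := by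
      rw [hspan, hmap]
      exact Submodule.mem_map_of_mem hb
    have hr : Set.range ((fun i => T.mkQ (B i)) ∘ a) =
        T.mkQ '' (B '' ((Finset.univ.image a : Finset σ) : Set σ)) := by
      ext q
      constructor
      · rintro ⟨k, rfl⟩
        exact ⟨B (a k), ⟨a k, by simp, rfl⟩, rfl⟩
      · rintro ⟨_, ⟨j, hj, rfl⟩, rfl⟩
        rw [Finset.mem_coe, Finset.mem_image] at hj
        obtain ⟨k, _, rfl⟩ := hj
        exact ⟨k, rfl⟩
    rw [hr, ← Submodule.map_span] at hb'
    obtain ⟨s, hs, hse⟩ := hb'
    have : b - s ∈ T := by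
      rw [← Submodule.ker_mkQ T, LinearMap.mem_ker, map_sub, hse, sub_self]
    rw [Submodule.mem_sup]
    exact ⟨b - s, this, s, hs, by abel⟩

end proofs

/-- **Symbolic determinants and orbit slices.** Let `𝓑` be the space spanned by the `n × n`
matrices `B i` over a field of characteristic zero, and let `x ∈ 𝓑`.
(1) If the matrices `B j`, `j ∈ J`, together with the tangent space of the orbit of `x` under the
infinitesimal symmetries of `𝓑`, span `𝓑`, then the symbolic determinant is nonzero if and only if
`det (x + ∑ j ∈ J, y_j B_j) ≠ 0` for one of the `(n + 1) ^ |J|` points `y ∈ {0, …, n} ^ J`.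
(2) The tangent space is contained in `𝓑`, and there is such a set `J` whose size is the
codimension of the tangent space in `𝓑`. -/
theorem result {K n σ : Type*} [Field K] [CharZero K] [Fintype n] [DecidableEq n] [Fintype σ]
    (B : σ → Matrix n n K) (x : Matrix n n K) (hx : x ∈ coeffSpace B) :
    (∀ J : Finset σ, coeffSpace B ≤ orbitTangent B x ⊔ Submodule.span K (B '' (J : Set σ)) →
      ((symbolicMatrix B).det ≠ 0 ↔ ∃ y : J → Fin (Fintype.card n + 1),
        (x + ∑ j : J, ((y j : ℕ) : K) • B j).det ≠ 0)) ∧
    (orbitTangent B x ≤ coeffSpace B ∧ ∃ J : Finset σ,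
      J.card = Module.finrank K (coeffSpace B) - Module.finrank K (orbitTangent B x) ∧
      coeffSpace B ≤ orbitTangent B x ⊔ Submodule.span K (B '' (J : Set σ))) := by
  classical
  refine ⟨fun J hJ => ?_, orbitTangent_le B hx, exists_complement B (orbitTangent_le B hx)⟩
  have hsym : symbolicMatrix B = H800R3.Slice.symbolicMatrix B := rfl
  rw [hsym, H800R3.Slice.symbolic_ne_zero_iff]
  have hS : Submodule.span K (B '' (J : Set σ)) ≤ coeffSpace B :=
    Submodule.span_mono (Set.image_subset_range _ _)
  have hsl : H800R3.Slice.SliceAt (coeffSpace B) (Submodule.span K (B '' (J : Set σ))) x := by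
    intro b hb
    obtain ⟨_, ⟨Z, Z', hZ, rfl⟩, s, hs, rfl⟩ := Submodule.mem_sup.1 (hJ hb)
    exact ⟨s, hs, Z, Z', fun y hy => hZ.all hy, by abel⟩
  constructor
  · rintro ⟨b, hb, hdet⟩
    by_contra hcon
    push Not at hcon
    apply hdet
    refine H800R3.Slice.slice hS hx hsl (fun s hs => ?_) b hb
    by_contra hs0
    have hs' : ∃ c : σ → K, (x + ∑ j ∈ J, c j • B j).det ≠ 0 := by
      obtain ⟨c, hc⟩ := (Submodule.mem_span_image_finset_iff_exists_fun K).1 hs
      refine ⟨fun j => if h : j ∈ J then c ⟨j, h⟩ else 0, ?_⟩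
      have : ∑ j ∈ J, (if h : j ∈ J then c ⟨j, h⟩ else 0) • B j = s := by
        rw [← hc, ← Finset.sum_coe_sort J]
        refine Finset.sum_congr rfl fun j _ => ?_
        rw [dif_pos j.2]
      rw [this]
      exact hs0
    obtain ⟨y, hy1, _, hy3⟩ := H800R3.Slice.grid B J x hs'
    apply hy3
    have := hcon fun j => ⟨y j, Nat.lt_succ_of_le (hy1 j)⟩
    rw [← this]
    congr 2
    rw [← Finset.sum_coe_sort J]
  · rintro ⟨y, hy⟩
    refine ⟨_, ?_, hy⟩
    refine (coeffSpace B).add_mem hx ((coeffSpace B).sum_mem fun j _ => ?_)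
    exact (coeffSpace B).smul_mem _ (Submodule.subset_span ⟨j, rfl⟩)

end Pool.Agent.Results.MP_64d474_lc.OrbitSlice
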