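import Pool.Agent.H442R3.SD.Alg

/-!
# Symbolic determinants: semidefinite symmetric parts and skew parts of rank at most two

We give a deterministic polynomial-time algorithm which decides whether the determinant of a symbolic
matrix `∑ x_k A_k` is a nonzero polynomial, for all symbolic matrices in which every coefficient
matrix `A_k` has a (positive or negative) semidefinite symmetric part, of arbitrary rank, and a skew
part of rank at most two.

Write `S_k = A_k + A_kᵀ` and `D_k = A_k - A_kᵀ`.  The algorithm tries all primes `p` of a polynomial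
range.  Modulo `p` it considers the following lines of a vector space of dimension `2n`: for every
`k` and every nonzero entry `(i, j)` of `D_k` the line spanned by rows `i` and `j` of `D_k`, and all
lines spanned by two vectors among the rows of all matrices `S_k` and `n` new unit vectors.  It
accepts if for some `p` there are `n` linearly independent lines (matroid parity problem).
-/

namespace Pool.Agent.Results.MP_64d474_lc.SemidefinitePlusSkew

open Pool.Agent.NPC Pool.Agent.H442R3.SD Matrix

/-- Encoding of a symbolic matrix: the list of the rows; every row is the list of its entries; every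
entry is a list of pairs (coefficient, index of the variable), with coefficients and indices in
binary. -/
abbrev Inst : Type := List (List (List (ℤ × ℕ)))

/-- all rows have length `n`, where `n` is the number of rows -/
def IsSquare (I : Inst) : Prop := ∀ r ∈ I, r.length = I.length

/-- the linear form encoded by a list of pairs -/
noncomputable def linearForm (l : List (ℤ × ℕ)) : MvPolynomial ℕ ℤ :=
  (l.map (fun q => MvPolynomial.C q.1 * MvPolynomial.X q.2)).sum

/-- the symbolic matrix -/
noncomputable def symbolicMatrix (I : Inst) :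
    Matrix (Fin I.length) (Fin I.length) (MvPolynomial ℕ ℤ) :=
  Matrix.of fun i j => linearForm ((I.getD i []).getD j [])

/-- the coefficient matrix `A_k` of the variable `x_k` -/
noncomputable def coeffMatrix (I : Inst) (k : ℕ) : Matrix (Fin I.length) (Fin I.length) ℤ :=
  Matrix.of fun i j => (symbolicMatrix I i j).coeff (Finsupp.single k 1)

/-- the symmetric part of `A` is positive semidefinite or negative semidefinite -/
def SemidefiniteSymmetricPart {n : ℕ} (A : Matrix (Fin n) (Fin n) ℤ) : Prop :=
  ((A + Aᵀ).map (Int.cast : ℤ → ℝ)).PosSemidef ∨ ((-(A + Aᵀ)).map (Int.cast : ℤ → ℝ)).PosSemidef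

/-- the skew part of `A` has rank at most two -/
def SkewPartRankLeTwo {n : ℕ} (A : Matrix (Fin n) (Fin n) ℤ) : Prop :=
  ((A - Aᵀ).map (Int.cast : ℤ → ℝ)).rank ≤ 2

/-- the total bit length of the encoding (every coefficient takes its binary length, every index its
binary length, and every pair, every entry and every row takes one more bit) -/
def bitLength (I : Inst) : ℕ :=
  (I.map (fun r => 1 + (r.map (fun e =>
    1 + (e.map (fun q => 1 + q.1.natAbs.size + q.2.size)).sum)).sum)).sum

theorem coeffMatrix_eq (I : Inst) (k : ℕ) (i j : Fin I.length) : coeffMatrix I k i j = CC I k i j := by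
  rw [coeffMatrix, Matrix.of_apply, symbolicMatrix, Matrix.of_apply, CC, cof, ety, linearForm]
  generalize (I.getD i []).getD j [] = l
  induction l with
  | nil => simp [cfl]
  | cons q l ih =>
    rw [List.map_cons, List.sum_cons, MvPolynomial.coeff_add, ih, cfl_cons,
      MvPolynomial.coeff_C_mul, MvPolynomial.coeff_X]
    congr 1
    by_cases h : q.2 = k
    · rw [if_pos (by rw [h]), if_pos h, mul_one]
    · rw [if_neg (fun h' => h ((Finsupp.single_left_inj one_ne_zero).1 h')), if_neg h, mul_zero]

theorem eval_det (I : Inst) (x : ℕ → ℤ) :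
    MvPolynomial.eval x (symbolicMatrix I).det = (MM (KK I) (CC I) x).det := by
  rw [RingHom.map_det]
  congr 1
  ext i j
  rw [RingHom.mapMatrix_apply, Matrix.map_apply, symbolicMatrix, Matrix.of_apply, linearForm, MM,
    map_list_sum, List.map_map]
  have h := ev_eq ((I.getD i []).getD j []) (KK I)
    (fun q hq => List.mem_toFinset.2 (mem_vrs (I := I) (i := i) (j := j) hq)) x
  refine Eq.trans ?_ h
  congr 1
  apply List.map_congr_left
  intro q _
  simp

theorem det_ne_zero_iff (I : Inst) :
    (symbolicMatrix I).det ≠ 0 ↔ ∃ x : ℕ → ℤ, (MM (KK I) (CC I) x).det ≠ 0 := by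
  constructor
  · intro h
    by_contra hcon
    push Not at hcon
    apply h
    apply MvPolynomial.funext
    intro x
    rw [eval_det, hcon x, map_zero]
  · rintro ⟨x, hx⟩ h
    apply hx
    rw [← eval_det, h, map_zero]

theorem form_nonneg {n : ℕ} (A : Matrix (Fin n) (Fin n) ℤ)
    (h : ((A + Aᵀ).map (Int.cast : ℤ → ℝ)).PosSemidef) (v : Fin n → ℤ) :
    0 ≤ ∑ i, ∑ j, v i * A i j * v j := by
  have h1 := h.dotProduct_mulVec_nonneg (fun i => (v i : ℝ))
  have h2 : star (fun i => (v i : ℝ)) ⬝ᵥ ((A + Aᵀ).map (Int.cast : ℤ → ℝ)) *ᵥ (fun i => (v i : ℝ)) =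
      ((2 * ∑ i, ∑ j, v i * A i j * v j : ℤ) : ℝ) := by
    have h3 : (2 * ∑ i, ∑ j, v i * A i j * v j : ℤ) = ∑ i, v i * ∑ j, (A i j + A j i) * v j := by
      simp only [Finset.mul_sum, add_mul, mul_add, Finset.sum_add_distrib]
      have h4 : ∑ i, ∑ j, v i * (A j i * v j) = ∑ i, ∑ j, v i * (A i j * v j) := by
        rw [Finset.sum_comm]
        apply Finset.sum_congr rfl
        intro i _
        apply Finset.sum_congr rfl
        intro j _
        ring
      rw [h4, ← Finset.sum_add_distrib]
      apply Finset.sum_congr rfl
      intro i _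
      rw [← Finset.sum_add_distrib]
      apply Finset.sum_congr rfl
      intro j _
      ring
    rw [h3]
    simp only [dotProduct, Matrix.mulVec, Matrix.map_apply, Matrix.add_apply, Matrix.transpose_apply,
      Pi.star_apply, star_trivial]
    push_cast
    rfl
  rw [h2] at h1
  have h5 : (0 : ℤ) ≤ 2 * ∑ i, ∑ j, v i * A i j * v j := by exact_mod_cast h1
  omega

theorem semi_of_class (I : Inst) (k : ℕ) (h : SemidefiniteSymmetricPart (coeffMatrix I k)) :
    (∀ v : Fin I.length → ℤ, 0 ≤ ∑ i, ∑ j, v i * CC I k i j * v j) ∨
      (∀ v : Fin I.length → ℤ, ∑ i, ∑ j, v i * CC I k i j * v j ≤ 0) := by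
  rcases h with h | h
  · left
    intro v
    have := form_nonneg _ h v
    simpa only [coeffMatrix_eq] using this
  · right
    intro v
    have h1 : -(coeffMatrix I k + (coeffMatrix I k)ᵀ) =
        (-(coeffMatrix I k)) + (-(coeffMatrix I k))ᵀ := by
      rw [Matrix.transpose_neg, neg_add]
    rw [h1] at h
    have := form_nonneg _ h v
    simp only [Matrix.neg_apply, coeffMatrix_eq, mul_neg, neg_mul, Finset.sum_neg_distrib] at this
    linarith

theorem pf_of_class (I : Inst) (h : ∀ k, SkewPartRankLeTwo (coeffMatrix I k)) : Pf I := by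
  intro k i j a b hi hj ha hb
  have h1 := pf_of_rank (coeffMatrix I k - (coeffMatrix I k)ᵀ) (fun i j => by
    simp only [Matrix.sub_apply, Matrix.transpose_apply]
    ring) (h k) ⟨i, hi⟩ ⟨j, hj⟩ ⟨a, ha⟩ ⟨b, hb⟩
  simp only [Matrix.sub_apply, Matrix.transpose_apply, coeffMatrix_eq, CC] at h1
  exact h1

/-- the length of the encoding is linear in the total bit length -/
theorem size_bound (I : Inst) : (bits I).length ≤ 9 * bitLength I + 1 := by
  rw [bits_length]
  have hgen : ∀ {α : Type} [TEnc α] (f : α → ℕ) (l : List α), (∀ a, sz a + 1 ≤ 9 * f a) →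
      sz l ≤ 9 * (l.map f).sum + 1 := by
    intro α _ f l hf
    induction l with
    | nil => simp
    | cons a l ih =>
      have := hf a
      rw [sz_list_cons, List.map_cons, List.sum_cons]
      omega
  have hpair : ∀ q : ℤ × ℕ, sz q + 1 ≤ 9 * (1 + q.1.natAbs.size + q.2.size) := by
    intro q
    have h1 : sz q = sz q.1 + sz q.2 + 1 := sz_pair q.1 q.2
    have h2 : sz q.1 = sz (decide (q.1 < 0)) + sz q.1.natAbs + 1 := by
      rw [sz_int, sz_pair]
    have h3 := sz_bool_le (decide (q.1 < 0))
    have h4 := sz_nat_le q.1.natAbs
    have h5 := sz_nat_le q.2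
    omega
  have hent : ∀ e : List (ℤ × ℕ), sz e + 1 ≤
      9 * (1 + (e.map (fun q => 1 + q.1.natAbs.size + q.2.size)).sum) := by
    intro e
    have := hgen (fun q : ℤ × ℕ => 1 + q.1.natAbs.size + q.2.size) e hpair
    omega
  have hrow : ∀ r : List (List (ℤ × ℕ)), sz r + 1 ≤ 9 * (1 + (r.map (fun e =>
      1 + (e.map (fun q => 1 + q.1.natAbs.size + q.2.size)).sum)).sum) := by
    intro r
    have := hgen (fun e : List (ℤ × ℕ) => 1 + (e.map (fun q => 1 + q.1.natAbs.size + q.2.size)).sum)
      r hent
    omega
  exact hgen _ I hrow

/-- **Symbolic determinants with semidefinite symmetric parts and skew parts of rank at most two.**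
There is a deterministic polynomial-time algorithm which, on the encoding of every symbolic matrix
`∑ x_k A_k` such that every `A_k` has a positive or negative semidefinite symmetric part and a skew
part of rank at most two, decides whether the input is square and the determinant is a nonzero
polynomial. The length of the encoding is linear in the total bit length. -/
theorem result :
    (∃ g : List Bool → Bool, PolyTime (fun x => [g x]) ∧ ∀ I : Inst,
      (∀ k, SemidefiniteSymmetricPart (coeffMatrix I k) ∧ SkewPartRankLeTwo (coeffMatrix I k)) →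
      (g (bits I) = true ↔ IsSquare I ∧ (symbolicMatrix I).det ≠ 0)) ∧
    (∀ I : Inst, (bits I).length ≤ 9 * bitLength I + 1) := by
  refine ⟨⟨fun x => (unbits Inst x).elim false (fun I =>
    I.all (fun r => decide (r.length = I.length)) && algo I x.length), ?_, fun I hI => ?_⟩,
    size_bound⟩
  · apply polyTime_of_poly
    refine NPC.Poly.optElim (o := fun x => unbits Inst x) (h := fun x I =>
      I.all (fun r => decide (r.length = I.length)) && algo I x.length) poly_unbits
      (NPC.Poly.const false) ?_
    refine NPC.Poly.and ?_ ?_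
    · fun_prop
    · exact poly_algo (NPC.Poly.snd NPC.Poly.id) (UPoly.length (NPC.Poly.fst NPC.Poly.id))
  · simp only [unbits_bits, Option.elim]
    rw [Bool.and_eq_true, bits_length, algo_correct I (pf_of_class I fun k => (hI k).2)
      (fun k _ => semi_of_class I k (hI k).1), ← det_ne_zero_iff]
    refine and_congr ?_ Iff.rfl
    rw [List.all_eq_true, IsSquare]
    simp only [decide_eq_true_eq]

end Pool.Agent.Results.MP_64d474_lc.SemidefinitePlusSkew
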